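import Pool.Agent.W956.DCS.Main

/-!
# Disjoint Connected Subgraphs in time `2 ^ n * poly n`

Question Q2 of MP_14a7d6_lc asks for an exact algorithm for Disjoint Connected Subgraphs on general
graphs, with the number `k` of terminal sets part of the input, that runs in time
`(3 - ε) ^ n * poly n` for some constant `ε > 0`.  There is one with running time `2 ^ n * poly n`.

The algorithm counts, by inclusion-exclusion over all vertex subsets `X`, the tuples of branching
lists (one for each terminal set, with root in that set, using only nonterminals and terminals of
that set) together with a list of nonterminals, of total length `n`, that cover all vertices.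
-/

namespace Pool.Agent.Results.MP_14a7d6_lc.DCSInTwoPowN

open Pool.Agent.W956.DCS

open Classical in
/-- There are a Turing machine (a Mathlib multi-stack machine) and a polynomial `p` such that for
all `n`, `k`, all graphs `G` on `n` vertices and all pairwise disjoint nonempty sets
`Z 0, …, Z (k - 1)` of vertices, the machine, started on the code of `(G, Z)`, stops with the
answer of Disjoint Connected Subgraphs for `(G, Z)` after at most `2 ^ n * p n` steps. -/
theorem result : ∃ (M : Turing.TM2ComputableAux Bool Bool) (p : Polynomial ℕ),
    ∀ (n k : ℕ) (G : SimpleGraph (Fin n)) (Z : Fin k → Finset (Fin n)),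
      (∀ i, (Z i).Nonempty) → (∀ i j, i ≠ j → Disjoint (Z i) (Z j)) →
      Nonempty (Turing.TM2OutputsInTime M.tm ((code G Z).map M.inputAlphabet.invFun)
        (some ([decide (HasDCS G Z)].map M.outputAlphabet.invFun)) (2 ^ n * p.eval n)) :=
  main

end Pool.Agent.Results.MP_14a7d6_lc.DCSInTwoPowN
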